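import Mathlib
import Pool.Agent.TH923.DM.Defs

/-!
# Reduction of the general statement to Galois extensions
-/

set_option autoImplicit false

namespace Pool.Agent.TH811.DM

open Polynomial IntermediateField

universe u1 u2 u3 w v

/-- Every element of degree at most `d` has a separable `p ^ d`-th power. -/
lemma sepPow {K : Type u1} {Om : Type u2} [Field K] [Field Om] [Algebra K Om] (p : ℕ)
    [Fact p.Prime] [CharP K p] (d : ℕ) (y : Om) (hy : IsIntegral K y)
    (hdeg : (minpoly K y).natDegree ≤ d) : IsSeparable K (y ^ (p ^ d)) := by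
  have : ExpChar K p := ExpChar.prime (Fact.out : p.Prime)
  obtain ⟨g, hg, m, hm⟩ := (minpoly.irreducible hy).hasSeparableContraction p
  have hgdeg : g.natDegree * p ^ m = (minpoly K y).natDegree := by
    rw [← hm, natDegree_expand]
  have hpos : 0 < (minpoly K y).natDegree := minpoly.natDegree_pos hy
  have hg0 : 1 ≤ g.natDegree := by
    rcases Nat.eq_zero_or_pos g.natDegree with h | h
    · rw [h, zero_mul] at hgdeg; omega
    · exact h
  have hmd : m ≤ d := by
    have h1 : m < p ^ m := Nat.lt_pow_self (Fact.out : p.Prime).one_lt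
    have h2 : p ^ m ≤ g.natDegree * p ^ m := Nat.le_mul_of_pos_left _ hg0
    omega
  have hroot : aeval (y ^ (p ^ m)) g = 0 := by
    rw [← expand_aeval, hm, minpoly.aeval]
  have hs : IsSeparable K (y ^ (p ^ m)) := hg.of_dvd (minpoly.dvd K _ hroot)
  have h3 : y ^ (p ^ d) = (y ^ (p ^ m)) ^ (p ^ (d - m)) := by
    rw [← pow_mul, ← pow_add, Nat.add_sub_cancel' hmd]
  rw [h3, ← mem_separableClosure_iff]
  exact pow_mem (mem_separableClosure_iff.2 hs) _

/-- The Galois closure of a finite separable subextension of degree at most `d` has degree at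
most `d !`. -/
lemma galClosure {K : Type u1} {Om : Type u2} [Field K] [Field Om] [Algebra K Om]
    [IsAlgClosed Om] (E : IntermediateField K Om) [FiniteDimensional K E]
    [Algebra.IsSeparable K E] (d : ℕ) (hd : Module.finrank K E ≤ d) :
    ∃ F : IntermediateField K Om, FiniteDimensional K F ∧ IsGalois K F ∧
      Module.finrank K F ≤ d.factorial ∧ E ≤ F := by
  classical
  obtain ⟨α, hα⟩ := Field.exists_primitive_element K E
  set β : Om := (α : Om) with hβ
  have hint : IsIntegral K α := IsIntegral.of_finite K α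
  have hintβ : IsIntegral K β := hint.map (E.val)
  set f : K[X] := minpoly K β with hf
  have hfα : f = minpoly K α := by
    rw [hf, hβ]
    exact (minpoly.algHom_eq E.val E.val.injective α)
  have hfs : f.Separable := by
    rw [hfα]
    exact Algebra.IsSeparable.isSeparable K α
  have hfd : f.natDegree ≤ d := by
    rw [hfα]
    exact (minpoly.natDegree_le α).trans hd
  have hsp : (f.map (algebraMap K Om)).Splits := IsAlgClosed.splits _
  set F : IntermediateField K Om := IntermediateField.adjoin K (f.rootSet Om) with hF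
  have hsF : f.IsSplittingField K F := adjoin_rootSet_isSplittingField hsp
  have hfin : FiniteDimensional K F := IsSplittingField.finiteDimensional F f
  refine ⟨F, hfin, IsGalois.of_separable_splitting_field hfs, ?_, ?_⟩
  · have h1 : Module.finrank K F = Nat.card f.Gal := by
      rw [Gal.card_of_separable hfs]
      exact (IsSplittingField.algEquiv F f).toLinearEquiv.finrank_eq
    have : Fact ((f.map (algebraMap K Om)).Splits) := ⟨hsp⟩
    have h2 : Nat.card f.Gal ≤ Nat.card (Equiv.Perm (f.rootSet Om)) :=
      Nat.card_le_card_of_injective _ (Gal.galActionHom_injective f Om)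
    have h3 : Nat.card (Equiv.Perm (f.rootSet Om)) = (Nat.card (f.rootSet Om)).factorial :=
      Nat.card_perm
    have h4 : Nat.card (f.rootSet Om) ≤ f.natDegree := by
      rw [Nat.card_eq_fintype_card, card_rootSet_eq_natDegree hfs hsp]
    rw [h1]
    refine h2.trans (h3.le.trans (Nat.factorial_le (h4.trans hfd)))
  · intro x hx
    have hf0 : f ≠ 0 := minpoly.ne_zero hintβ
    have hβF : β ∈ F := by
      apply IntermediateField.subset_adjoin
      rw [mem_rootSet]
      exact ⟨hf0, minpoly.aeval K β⟩
    have h5 : (⟨x, hx⟩ : E) ∈ (⊤ : IntermediateField K E) := trivial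
    rw [← hα] at h5
    have h6 : (IntermediateField.map E.val (K⟮α⟯)) = K⟮β⟯ := by
      rw [IntermediateField.adjoin_map]
      simp [hβ]
    have h7 : x ∈ K⟮β⟯ := by
      rw [← h6]
      exact ⟨⟨x, hx⟩, h5, rfl⟩
    have h8 : K⟮β⟯ ≤ F := by
      rw [IntermediateField.adjoin_le_iff]
      intro z hz
      rw [Set.mem_singleton_iff] at hz
      rw [hz]
      exact hβF
    exact h8 h7

/-- The compositum of `K` and the image of `L` has degree at most `[L : F]`. -/
lemma compositum {F : Type u1} {L : Type u2} {K : Type u3} {Om : Type w} [Field F] [Field L]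
    [Field K] [Field Om] [Algebra F L] [FiniteDimensional F L] [Algebra K Om] [Algebra F K]
    [Algebra F Om] [IsScalarTower F K Om] (i : L →ₐ[F] Om) :
    ∃ L1 : IntermediateField K Om, FiniteDimensional K L1 ∧
      Module.finrank K L1 ≤ Module.finrank F L ∧ ∀ x, i x ∈ L1 := by
  set ψ : TensorProduct F K L →ₐ[K] Om :=
    Algebra.TensorProduct.lift (Algebra.ofId K Om) i (fun _ _ => Commute.all _ _) with hψ
  have hfin : FiniteDimensional K ψ.range :=
    Module.Finite.of_surjective ψ.rangeRestrict.toLinearMap ψ.rangeRestrict_surjective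
  have hfr : Module.finrank K ψ.range ≤ Module.finrank F L := by
    have h1 := LinearMap.finrank_le_finrank_of_surjective
      (f := ψ.rangeRestrict.toLinearMap) ψ.rangeRestrict_surjective
    rwa [Module.finrank_baseChange] at h1
  have : Algebra.IsIntegral K ψ.range := Algebra.IsIntegral.of_finite K ψ.range
  refine ⟨ψ.range.toIntermediateField ?_, ?_, ?_, ?_⟩
  · intro x hx
    have h2 : IsIntegral K (⟨x, hx⟩ : ψ.range) := Algebra.IsIntegral.isIntegral _
    have h3 : IsAlgebraic K x := (h2.map ψ.range.val).isAlgebraic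
    exact Subalgebra.inv_mem_of_algebraic (x := ⟨x, hx⟩) ψ.range h3
  · exact hfin
  · exact hfr
  · intro x
    refine ⟨(1 : K) ⊗ₜ[F] x, ?_⟩
    simp [hψ]

/-- The field used in the reduction. -/
lemma exField {F : Type u1} {L : Type u2} {K : Type u3} {Om : Type w} [Field F] [Field L]
    [Field K] [Field Om] [Algebra F L] [FiniteDimensional F L] [Algebra K Om] [IsAlgClosed Om]
    (φ : F →+* K) (p : ℕ) [Fact p.Prime] [CharP K p]
    (d : ℕ) (hd : Module.finrank F L ≤ d) :
    ∃ i : L →+* Om, (∀ x : F, i (algebraMap F L x) = algebraMap K Om (φ x)) ∧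
    ∃ F' : IntermediateField K Om, FiniteDimensional K F' ∧ IsGalois K F' ∧
      Module.finrank K F' ≤ d.factorial ∧ ∀ x : L, (i x) ^ (p ^ d) ∈ F' := by
  let a1 : Algebra F K := φ.toAlgebra
  let a2 : Algebra F Om := ((algebraMap K Om).comp φ).toAlgebra
  have a3 : IsScalarTower F K Om := IsScalarTower.of_algebraMap_eq fun x => rfl
  have : Algebra.IsAlgebraic F L := Algebra.IsAlgebraic.of_finite F L
  let i : L →ₐ[F] Om := IsAlgClosed.lift
  obtain ⟨L1, hL1, hL1d, hL1i⟩ := compositum (K := K) i
  have hdeg : ∀ y ∈ L1, IsIntegral K y ∧ (minpoly K y).natDegree ≤ d := by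
    intro y hy
    have h1 : IsIntegral K (⟨y, hy⟩ : L1) := IsIntegral.of_finite K _
    have h2 : minpoly K y = minpoly K (⟨y, hy⟩ : L1) :=
      minpoly.algHom_eq L1.val L1.val.injective (⟨y, hy⟩ : L1)
    refine ⟨h1.map L1.val, ?_⟩
    rw [h2]
    exact ((minpoly.natDegree_le _).trans hL1d).trans hd
  set E : IntermediateField K Om :=
    IntermediateField.adjoin K (Set.range fun x : L => (i x) ^ (p ^ d)) with hE
  have hEL : E ≤ L1 := by
    rw [hE, IntermediateField.adjoin_le_iff]
    rintro _ ⟨x, rfl⟩
    exact pow_mem (hL1i x) _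
  have : FiniteDimensional K E :=
    Module.Finite.of_injective (IntermediateField.inclusion hEL).toLinearMap
      (IntermediateField.inclusion hEL).injective
  have : Algebra.IsSeparable K E := by
    rw [hE, IntermediateField.isSeparable_adjoin_iff_isSeparable]
    rintro _ ⟨x, rfl⟩
    exact sepPow p d (i x) (hdeg _ (hL1i x)).1 (hdeg _ (hL1i x)).2
  have hEd : Module.finrank K E ≤ d :=
    ((LinearMap.finrank_le_finrank_of_injective
      (f := (IntermediateField.inclusion hEL).toLinearMap)
      (IntermediateField.inclusion hEL).injective).trans hL1d).trans hd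
  obtain ⟨F', h1, h2, h3, h4⟩ := galClosure E d hEd
  refine ⟨i.toRingHom, fun x => ?_, F', h1, h2, h3, fun x => h4 ?_⟩
  · show i (algebraMap F L x) = _
    rw [AlgHom.commutes]
    rfl
  · exact IntermediateField.subset_adjoin K _ ⟨x, rfl⟩

/-- The natural map `k(X) → kb(X)`. -/
noncomputable def ratMap (k : Type u1) (kb : Type u2) [Field k] [Field kb] [Algebra k kb] :
    RatFunc k →+* RatFunc kb :=
  RatFunc.mapRingHom (Polynomial.mapRingHom (algebraMap k kb))
    (nonZeroDivisors_le_comap_nonZeroDivisors_of_injective _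
      (Polynomial.map_injective _ (algebraMap k kb).injective))

lemma ratMap_X (k : Type u1) (kb : Type u2) [Field k] [Field kb] [Algebra k kb] :
    ratMap k kb RatFunc.X = RatFunc.X := by
  have h := RatFunc.map_apply_div (Polynomial.mapRingHom (algebraMap k kb))
    (nonZeroDivisors_le_comap_nonZeroDivisors_of_injective _
      (Polynomial.map_injective _ (algebraMap k kb).injective)) (X : k[X]) 1
  rw [map_one, map_one, div_one, map_one, div_one] at h
  rw [← RatFunc.algebraMap_X, ← RatFunc.algebraMap_X]
  rw [RatFunc.algebraMap_X] at h ⊢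
  show (RatFunc.mapRingHom (Polynomial.mapRingHom (algebraMap k kb)) _) RatFunc.X = _
  rw [RatFunc.coe_mapRingHom_eq_coe_map]
  simpa using h

theorem lemRED : TH923.DM.S_RED.{w, v} := by
  intro hclaim p hp r d hr
  obtain ⟨N, hN⟩ := hclaim p r d.factorial d hr
  refine ⟨N, ?_⟩
  intro k _ _ L _ _ _ _ _ hd g hg0 hgr M _ hM
  set kb := AlgebraicClosure k with hkb
  have : CharP kb p := charP_of_injective_algebraMap (algebraMap k kb).injective p
  have : CharP (RatFunc kb) p :=
    charP_of_injective_ringHom (algebraMap kb (RatFunc kb)).injective p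
  have : CharP (AlgebraicClosure (RatFunc kb)) p :=
    charP_of_injective_algebraMap (algebraMap (RatFunc kb) _).injective p
  obtain ⟨i, hi, F', h1, h2, h3, h4⟩ := exField (L := L) (K := RatFunc kb)
    (Om := AlgebraicClosure (RatFunc kb)) (ratMap k kb) p d hd
  have : CharP F' p := charP_of_injective_algebraMap (algebraMap (RatFunc kb) F').injective p
  let : Algebra (ZMod p) F' := ZMod.algebra F' p
  have : ExpChar (AlgebraicClosure (RatFunc kb)) p := ExpChar.prime (Fact.out : p.Prime)
  let ψ : L →+* F' := RingHom.codRestrict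
    ((iterateFrobenius (AlgebraicClosure (RatFunc kb)) p d).comp i) F'.toSubfield.toSubring
    (fun x => by
      show (iterateFrobenius (AlgebraicClosure (RatFunc kb)) p d) (i x) ∈ F'
      rw [iterateFrobenius_def]
      exact h4 x)
  have hψ : ∀ x, ((ψ x : F') : AlgebraicClosure (RatFunc kb)) = (i x) ^ (p ^ d) := by
    intro x
    show (iterateFrobenius (AlgebraicClosure (RatFunc kb)) p d) (i x) = _
    rw [iterateFrobenius_def]
  let ψl : L →ₗ[ZMod p] F' := (ψ : L →+ F').toZModLinearMap p
  have hψl : ∀ x, ψl x = ψ x := fun x => rfl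
  have hψinj : Function.Injective ψl := ψ.injective
  have hev : ∀ x, TH923.DM.ev p (fun j => ψ (g j)) r (ψ x) = ψ (TH923.DM.ev p g r x) := by
    intro x
    unfold TH923.DM.ev
    rw [map_sum]
    refine Finset.sum_congr rfl fun j _ => ?_
    rw [map_mul, map_pow]
  have h5 := hN kb F' h3 (fun j => ψ (g j)) (by
    apply Subtype.ext
    rw [hψ, hg0, hi, ratMap_X]
    rfl) (by
    intro h
    exact hgr (by simpa using h)) (M.map ψl) (by
    rintro _ ⟨x, hx, rfl⟩
    refine ⟨TH923.DM.ev p g r x, hM x hx, ?_⟩
    rw [hψl, hψl, hev])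
  have h6 : Module.finrank (ZMod p) (M.map ψl) = Module.finrank (ZMod p) M :=
    (Submodule.equivMapOfInjective ψl hψinj M).finrank_eq.symm
  rw [← h6]
  exact h5

end Pool.Agent.TH811.DM
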